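import Mathlib
import Pool.Agent.Q166.UnivTree

/-!
# MP_f40460_co: a sequence of trees that is `k`-universal for every `k`
-/

set_option autoImplicit false

open scoped Classical
open Filter

namespace Pool.Agent.Results.MP_f40460_co.Universal

/-- `Z_k(T)`: the number of `k`-element vertex sets inducing a connected subgraph. -/
noncomputable def Z {V : Type} (k : ℕ) (T : SimpleGraph V) : ℕ :=
  Nat.card {U : Finset V // U.card = k ∧ (T.induce (U : Set V)).Connected}

/-- `c(S, T)`: the number of `k`-subtrees `U` of `T` with `T[U] ≅ S` (`k` the number of vertices of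
`S`). -/
noncomputable def c {V W : Type} [Fintype W] (S : SimpleGraph W) (T : SimpleGraph V) : ℕ :=
  Nat.card {U : Finset V // U.card = Fintype.card W ∧ (T.induce (U : Set V)).Connected ∧
    Nonempty (T.induce (U : Set V) ≃g S)}

/-- The sequence of trees `T n` is `k`-universal: eventually `T n` has at least `k` vertices, and for
every tree `S` on `k` vertices the proportion `c(S, T n) / Z_k(T n)` has positive `liminf`. -/
def IsUniversal (k : ℕ) (V : ℕ → Type) [∀ n, Fintype (V n)] (T : ∀ n, SimpleGraph (V n)) : Prop :=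
  (∀ᶠ n in atTop, k ≤ Fintype.card (V n)) ∧
    ∀ S : SimpleGraph (Fin k), S.IsTree →
      0 < liminf (fun n => (c S (T n) : ℝ) / (Z k (T n) : ℝ)) atTop

/-- finite trees on `Fin (m + 1)` -/
abbrev Tr : Type := Σ m : ℕ, {G : SimpleGraph (Fin (m + 1)) // G.IsTree}

theorem triv_tree : (⊥ : SimpleGraph (Fin (0 + 1))).IsTree := by
  have : Unique (Fin (0 + 1)) := inferInstanceAs (Unique (Fin 1))
  refine ⟨?_, SimpleGraph.isAcyclic_bot⟩
  exact ⟨fun a b => by rw [Subsingleton.elim a b]⟩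

def triv : Tr := ⟨0, ⊥, triv_tree⟩

/-- an enumeration of all trees with size growing slowly -/
theorem exists_enum : ∃ e : ℕ → Tr, (∀ j, (e j).1 ≤ j) ∧ ∀ t : Tr, ∃ j, e j = t := by
  have : Nonempty Tr := ⟨triv⟩
  obtain ⟨g, hg⟩ := exists_surjective_nat Tr
  refine ⟨fun j => if (g (Nat.unpair j).1).1 ≤ j then g (Nat.unpair j).1 else triv, ?_, ?_⟩
  · intro j
    show (if (g (Nat.unpair j).1).1 ≤ j then g (Nat.unpair j).1 else triv).1 ≤ j
    split_ifs with h
    · exact h
    · exact Nat.zero_le _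
  · intro t
    obtain ⟨a, ha⟩ := hg t
    refine ⟨Nat.pair a t.1, ?_⟩
    have h1 : t.1 ≤ Nat.pair a t.1 := Nat.right_le_pair _ _
    simp only [Nat.unpair_pair]
    rw [ha, if_pos h1]

/-- the block graph -/
def blk (t : Tr) : SimpleGraph ℕ := t.2.1.map (Fin.valEmbedding (n := t.1 + 1))

def blkIso (t : Tr) : ((blk t).induce {x | x ≤ t.1}) ≃g t.2.1 where
  toFun x := ⟨x.1, Nat.lt_succ_of_le x.2⟩
  invFun x := ⟨x.1, Nat.le_of_lt_succ x.2⟩
  left_inv x := rfl
  right_inv x := rfl
  map_rel_iff' := by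
    rintro ⟨x, hx⟩ ⟨y, hy⟩
    have := SimpleGraph.map_adj_apply (G := t.2.1) (f := Fin.valEmbedding (n := t.1 + 1))
      (a := ⟨x, Nat.lt_succ_of_le hx⟩) (b := ⟨y, Nat.lt_succ_of_le hy⟩)
    exact this.symm

/-- There is a sequence of finite trees that is `k`-universal for every `k ≥ 1` simultaneously. -/
theorem result : ∃ (V : ℕ → Type) (_ : ∀ n, Fintype (V n)) (T : ∀ n, SimpleGraph (V n)),
    (∀ n, (T n).IsTree) ∧ ∀ k : ℕ, 1 ≤ k → IsUniversal k V T := by
  obtain ⟨e, he, hsurj⟩ := exists_enum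
  let m : ℕ → ℕ := fun i => (e (Q166.UnivTree.val i)).1
  let H : ℕ → SimpleGraph ℕ := fun i => blk (e (Q166.UnivTree.val i))
  have hH : ∀ i, ((H i).induce {x | x ≤ m i}).IsTree := by
    intro i
    exact (blkIso (e (Q166.UnivTree.val i))).isTree_iff.2 (e (Q166.UnivTree.val i)).2.2
  let V : ℕ → Type := fun n => Q166.UnivTree.Vn m (n + 1)
  have hV : ∀ n, Fintype (V n) := fun n => (Q166.UnivTree.Vn_finite m (n + 1)).fintype
  let T : ∀ n, SimpleGraph (V n) := fun n => Q166.UnivTree.TN m H (n + 1)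
  have hT : ∀ n, (T n).IsTree := fun n => Q166.UnivTree.TN_isTree hH n
  refine ⟨V, hV, T, hT, ?_⟩
  intro k hk
  constructor
  · filter_upwards [eventually_ge_atTop k] with n hn
    have h1 : Fintype.card (Fin (n + 1)) ≤ Fintype.card (V n) :=
      @Fintype.card_le_of_injective _ _ _ (hV n) (fun i : Fin (n + 1) =>
      (⟨(i.1, 0), ⟨i.2, Nat.zero_le _⟩⟩ : V n)) (by
        intro a b hab
        exact Fin.ext (congrArg (fun p : V n => p.1.1) hab))
    rw [Fintype.card_fin] at h1
    omega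
  · intro S hS
    obtain ⟨k', rfl⟩ : ∃ k', k = k' + 1 := ⟨k - 1, by omega⟩
    obtain ⟨j, hj⟩ := hsurj ⟨k', S, hS⟩
    let C : ℝ := ∑' j : ℕ, (((2 * (k' + 1) + 1) * (j + 1) : ℕ) : ℝ) ^ (k' + 1) / 2 ^ j
    have hCsum := Q166.UnivTree.summable_poly (k' + 1)
    have hC1 : 1 ≤ C := by
      have h1 := hCsum.sum_le_tsum (Finset.range 1) (fun j _ => by positivity)
      rw [Finset.sum_range_one] at h1
      refine le_trans ?_ h1
      have h2 : (1 : ℝ) ≤ (((2 * (k' + 1) + 1) * (0 + 1) : ℕ) : ℝ) := by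
        exact_mod_cast (by omega : 1 ≤ (2 * (k' + 1) + 1) * (0 + 1))
      simp only [pow_zero, div_one]
      exact one_le_pow₀ h2
    have hC0 : 0 < C := by linarith
    have hZ : ∀ n, (Z (k' + 1) (T n) : ℝ) ≤ C * ((n + 1 : ℕ) : ℝ) := by
      intro n
      have h1 : Z (k' + 1) (T n) ≤ ∑ i ∈ Finset.range (n + 1),
          ((2 * (k' + 1) + 1) * (Q166.UnivTree.val i + 1)) ^ (k' + 1) :=
        Q166.UnivTree.Z_le m H Q166.UnivTree.val (fun i => he _) (k' + 1) (n + 1) (by omega)
      have h2 : (Z (k' + 1) (T n) : ℝ) ≤ ∑ i ∈ Finset.range (n + 1),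
          (((2 * (k' + 1) + 1) * (Q166.UnivTree.val i + 1) : ℕ) : ℝ) ^ (k' + 1) := by exact_mod_cast h1
      exact h2.trans (Q166.UnivTree.sum_val_le (fun j => (((2 * (k' + 1) + 1) * (j + 1) : ℕ) : ℝ) ^ (k' + 1))
        (fun j => by positivity) hCsum (n + 1))
    have hc : ∀ n, 2 ^ (j + 2) ≤ n → (((n + 1 : ℕ) : ℝ)) / 2 ^ (j + 2) ≤ (c S (T n) : ℝ) := by
      intro n hn
      have h1 := Q166.UnivTree.count_val_real (n + 1) j (by omega)
      refine h1.trans ?_
      have h2 := Q166.UnivTree.copies_ge m H S hS.1 (n + 1) (fun i => Q166.UnivTree.val i = j) (by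
        intro i hi
        have h3 : e (Q166.UnivTree.val i) = ⟨k', S, hS⟩ := by rw [hi, hj]
        have h4 := blkIso (e (Q166.UnivTree.val i))
        have h5 : Nonempty ((e (Q166.UnivTree.val i)).2.1 ≃g S) := by
          rw [h3]
          exact ⟨SimpleGraph.Iso.refl⟩
        exact h5.elim fun f => ⟨h4.trans f⟩)
      have h6 : ((Finset.range (n + 1)).filter (fun i => Q166.UnivTree.val i = j)).card ≤
          c S (T n) := by
        refine le_trans (le_of_eq ?_) h2
        apply congrArg Finset.card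
        ext i
        simp only [Finset.mem_filter]
      exact_mod_cast h6
    have hle : ∀ n, (c S (T n) : ℝ) ≤ (Z (k' + 1) (T n) : ℝ) := by
      intro n
      have h1 : c S (T n) ≤ Z (Fintype.card (Fin (k' + 1))) (T n) := Q166.UnivTree.copies_le_Z S (T n)
      rw [Fintype.card_fin] at h1
      exact_mod_cast h1
    have hlow : ∀ᶠ n in atTop, 1 / (C * 2 ^ (j + 2)) ≤ (c S (T n) : ℝ) / (Z (k' + 1) (T n) : ℝ) := by
      filter_upwards [eventually_ge_atTop (2 ^ (j + 2))] with n hn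
      have h1 := hc n hn
      have h2 := hZ n
      have h3 := hle n
      have h4 : (0 : ℝ) < ((n + 1 : ℕ) : ℝ) := by positivity
      have h5 : 0 < (c S (T n) : ℝ) := lt_of_lt_of_le (by positivity) h1
      have h6 : 0 < (Z (k' + 1) (T n) : ℝ) := lt_of_lt_of_le h5 h3
      rw [div_le_div_iff₀ (by positivity) h6, one_mul]
      rw [div_le_iff₀ (by positivity)] at h1
      calc (Z (k' + 1) (T n) : ℝ) ≤ C * ((n + 1 : ℕ) : ℝ) := h2
        _ ≤ C * ((c S (T n) : ℝ) * 2 ^ (j + 2)) := by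
          apply mul_le_mul_of_nonneg_left h1 hC0.le
        _ = (c S (T n) : ℝ) * (C * 2 ^ (j + 2)) := by ring
    refine lt_of_lt_of_le (show (0 : ℝ) < 1 / (C * 2 ^ (j + 2)) by positivity) ?_
    apply le_liminf_of_le ?_ hlow
    apply isCoboundedUnder_ge_of_le atTop (x := 1)
    intro n
    have h3 := hle n
    exact div_le_one_of_le₀ h3 (by positivity)

end Pool.Agent.Results.MP_f40460_co.Universal
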